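import Pool.Agent.H44.DV.Targets

/-!
# KP: a free interval sees the letters of the leaves of nearby directions
-/

set_option autoImplicit false

namespace Pool.Agent.H56.DV

open Pool.Agent.H44.DU

lemma wd_succ {n : ℕ} (W : ℕ → Side n) (j : ℕ) : wd W (j + 1) = wd W j ++ [W j] := by
  simp [wd, List.range_succ]

lemma wd_congr {n : ℕ} {V W : ℕ → Side n} {m : ℕ} (h : ∀ i < m, V i = W i) :
    wd V m = wd W m := by
  unfold wd
  exact List.map_congr_left fun i hi => h i (List.mem_range.1 hi)

variable {n : ℕ} (S : Surf n)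

lemma dev_gl (v : List (Side n)) (l : Side n) :
    S.dev (v ++ [l]) (S.gl l) = S.dev v (nx l) := by
  have h1 := S.a_ne l
  have h2 : (S.A v : ℂ) ≠ 0 := by exact_mod_cast (S.A_pos v).ne'
  simp only [Surf.dev, S.P_gl, S.P_nx, S.A_append, S.B_append, Surf.A, Surf.B]
  push_cast
  field_simp
  ring

lemma dev_nx_gl (v : List (Side n)) (l : Side n) :
    S.dev (v ++ [l]) (nx (S.gl l)) = S.dev v l := by
  have h1 := S.a_ne l
  have h2 : (S.A v : ℂ) ≠ 0 := by exact_mod_cast (S.A_pos v).ne'
  simp only [Surf.dev, S.P_nx, S.Q_gl, S.A_append, S.B_append, Surf.A, Surf.B]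
  push_cast
  field_simp
  ring

lemma corner_left (t : ℝ) (W : ℕ → Side n) (j : ℕ) :
    xi t (S.dev (wd W (j + 1)) (S.gl (W j))) = S.lc t W j := by
  rw [wd_succ, dev_gl]
  rfl

lemma corner_right (t : ℝ) (W : ℕ → Side n) (j : ℕ) :
    xi t (S.dev (wd W (j + 1)) (nx (S.gl (W j)))) = S.rc t W j := by
  rw [wd_succ, dev_nx_gl]
  rfl

/-- The next letter is one of the two exits. -/
lemma next_cases {t x : ℝ} {W : ℕ → Side n} {j : ℕ} (h0 : (S.gl (W j)).1 = (W (j + 1)).1)
    (h1 : S.lc t W j < S.rc t W j) (h2 : S.lc t W (j + 1) < x) (h3 : x < S.rc t W (j + 1)) :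
    W (j + 1) = nx (S.gl (W j)) ∨ W (j + 1) = nx (nx (S.gl (W j))) := by
  rcases side_cases (r := W (j + 1)) (s := S.gl (W j)) h0.symm with h | h
  · exfalso
    have h4 : S.rc t W (j + 1) = S.lc t W j := by
      rw [← corner_left, ← h]
      rfl
    have h5 : S.lc t W (j + 1) = S.rc t W j := by
      rw [← corner_right, ← h]
      rfl
    linarith
  · exact h

theorem pf_KP (h1 : D_RC) (h2 : D_CP) (h3 : D_HM) : D_KP := by
  intro n S s t w z W V k hw hz hrun hfr h0 hlt
  have hW := (h1 n S s (xi s z) W (k + 1)).1 hrun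
  -- the free interval
  have hmid : ∀ x, xi t z - w < x → x < xi t z + w → ∀ i, S.lc t V i < x ∧ x < S.rc t V i := by
    intro x hx1 hx2 i
    exact ((h1 n S t x V (i + 1)).1 (hfr (i + 1) x hx1 hx2)).2 i (Nat.lt_succ_self i)
  have hR : ∀ i, xi t z + w ≤ S.rc t V i := by
    intro i
    by_contra hlt'
    push Not at hlt'
    have ha := (hmid (xi t z) (by linarith) (by linarith) i).2
    have hb := (hmid ((S.rc t V i + (xi t z + w)) / 2) (by linarith) (by linarith) i).2
    linarith
  have hL : ∀ i, S.lc t V i ≤ xi t z - w := by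
    intro i
    by_contra hlt'
    push Not at hlt'
    have ha := (hmid (xi t z) (by linarith) (by linarith) i).1
    have hb := (hmid ((S.lc t V i + (xi t z - w)) / 2) (by linarith) (by linarith) i).1
    linarith
  have hV0 : ∀ i, (S.gl (V i)).1 = (V (i + 1)).1 := by
    intro i
    exact ((h1 n S t (xi t z) V (i + 2)).1 (hfr (i + 2) _ (by linarith) (by linarith))).1 i
      (by omega)
  intro j
  induction j using Nat.strong_induction_on with
  | _ j ih =>
    intro hj
    rcases Nat.eq_zero_or_pos j with rfl | hpos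
    · exact h0
    obtain ⟨j, rfl⟩ : ∃ i, j = i + 1 := ⟨j - 1, by omega⟩
    have hpre : ∀ i < j + 1, V i = W i := fun i hi => ih i hi (by omega)
    have hVj : V j = W j := hpre j (Nat.lt_succ_self j)
    have hwd : wd V (j + 1) = wd W (j + 1) := wd_congr hpre
    have hWc := next_cases S (t := s) (x := xi s z) (W := W) (j := j) (hW.1 j (by omega))
      ((hW.2 j (by omega)).1.trans (hW.2 j (by omega)).2) (hW.2 (j + 1) (by omega)).1
      (hW.2 (j + 1) (by omega)).2
    have hVm := hmid (xi t z) (by linarith) (by linarith)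
    have hVc := next_cases S (t := t) (x := xi t z) (W := V) (j := j) (hV0 j)
      ((hVm j).1.trans (hVm j).2) (hVm (j + 1)).1 (hVm (j + 1)).2
    rw [hVj] at hVc
    -- the crossing of the leaf of direction s
    have hrun' : S.Run s (wd W (j + 1 + 1)) (xi s z) :=
      (h1 n S s (xi s z) W (j + 1 + 1)).2 ⟨fun i hi => hW.1 i (by omega),
        fun i hi => hW.2 i (by omega)⟩
    obtain ⟨l, hl0, hl1, hl⟩ := h2 n S s t z W (j + 1) hrun'
    obtain ⟨hm0, hm1⟩ := h3 n S s z W (j + 1) k hj hz hrun
    have hsmall : |(s - t) * S.hj s W z (j + 1)| < w := by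
      rw [abs_mul, abs_of_nonneg hm0, abs_sub_comm]
      exact (mul_le_mul_of_nonneg_left hm1 (abs_nonneg _)).trans_lt hlt
    obtain ⟨hs1, hs2⟩ := abs_lt.1 hsmall
    -- the corners
    have cL : xi t (S.dev (wd W (j + 1)) (S.gl (W j))) = S.lc t V j := by
      rw [← corner_left S t V j, hVj, hwd]
    have cR : xi t (S.dev (wd W (j + 1)) (nx (S.gl (W j)))) = S.rc t V j := by
      rw [← corner_right S t V j, hVj, hwd]
    rcases hWc with hWc | hWc <;> rcases hVc with hVc | hVc
    · rw [hWc, hVc]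
    · exfalso
      have e1 : S.rc t W (j + 1) = S.rc t V j := by
        rw [← cR, ← hWc]
        rfl
      have e2 : S.lc t W (j + 1) = S.rc t V (j + 1) := by
        unfold Surf.lc Surf.rc
        rw [hWc, hVc, hwd]
      have a1 := hR j
      have a2 := hR (j + 1)
      rw [e1, e2] at hl
      nlinarith
    · exfalso
      have e1 : S.rc t W (j + 1) = S.lc t V (j + 1) := by
        unfold Surf.lc Surf.rc
        rw [hWc, hVc, hwd]
      have e2 : S.lc t W (j + 1) = S.lc t V j := by
        rw [← cL]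
        unfold Surf.lc
        rw [hWc, nx_nx_nx]
      have a1 := hL j
      have a2 := hL (j + 1)
      rw [e1, e2] at hl
      nlinarith
    · rw [hWc, hVc]

end Pool.Agent.H56.DV
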