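import Pool.Agent.H44.DV.Targets

/-!
# PS: the set Th is porous
-/

set_option autoImplicit false

namespace Pool.Agent.H56.DV

open Pool.Agent.H44.DU

theorem pf_PS (h1 : D_RC) (h2 : D_CP) (h3 : D_HG) (h4 : D_AM) (h5 : D_KP) (h6 : D_OC) :
    D_PS := by
  rintro n S r z w C K hw hC hz t ⟨htK, W, hW0, hfr, hinf⟩ ε hε
  subst hW0
  obtain ⟨D, hD, hAM⟩ := h4 n S K
  have hA : ∀ j, S.A (wd W j) ≤ D / (2 * w) := by
    intro j
    rw [le_div_iff₀ (by positivity)]
    have := hAM t htK W _ _ (by linarith : xi t z - w < xi t z + w) hfr j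
    linarith
  obtain ⟨L, hL1, hL2⟩ : ∃ L : ℝ, 2 * C < L ∧ 2 * C / ε < L :=
    ⟨max (2 * C) (2 * C / ε) + 1, by have := le_max_left (2 * C) (2 * C / ε); linarith,
      by have := le_max_right (2 * C) (2 * C / ε); linarith⟩
  have hL0 : 0 < L := by linarith
  obtain ⟨k₀, hk₀⟩ := h3 n S (K + 1) (D / (2 * w)) L
  obtain ⟨k, hk, hkC⟩ := hinf k₀
  obtain ⟨hopen, hord⟩ := h6 n S z W (k + 1)
  set O : Set ℝ := {s : ℝ | S.Run s (wd W (k + 1)) (xi s z)} with hO
  have htO : t ∈ O := hfr (k + 1) (xi t z) (by linarith) (by linarith)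
  obtain ⟨hrc1, hrc2⟩ := ((h1 n S t (xi t z) W (k + 1)).1 htO).2 k (Nat.lt_succ_self k)
  -- estimates on O
  have ha : ∀ s ∈ O, t < s → s ≤ t + 1 → (s - t) * S.hj s W z k < C ∧ L ≤ S.hj s W z k := by
    intro s hs hts hs1
    have hsK : |s| ≤ K + 1 := by
      rw [abs_le] at htK ⊢
      constructor <;> linarith [htK.1, htK.2]
    refine ⟨?_, hk₀ s hsK z W k hk hz hs (fun j _ => hA j)⟩
    obtain ⟨l, hl0, hl1, hl⟩ := h2 n S s t z W k hs
    nlinarith
  have haL : ∀ s ∈ O, t < s → s ≤ t + 1 → (s - t) * L < C := by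
    intro s hs hts hs1
    obtain ⟨b1, b2⟩ := ha s hs hts hs1
    nlinarith
  have hb : ∀ s ∈ O, s ≤ t + 1 := by
    intro s hs
    by_contra hlt
    push Not at hlt
    have h7 : t + 1 ∈ O := hord.out htO hs ⟨by linarith, hlt.le⟩
    have h8 := haL (t + 1) h7 (by linarith) le_rfl
    nlinarith
  have hbdd : BddAbove O := ⟨t + 1, fun s hs => hb s hs⟩
  obtain ⟨σ, hσ⟩ : ∃ σ, σ = sSup O := ⟨_, rfl⟩
  have hle : ∀ s ∈ O, s ≤ σ := fun s hs => by rw [hσ]; exact le_csSup hbdd hs
  have hpush : ∀ s ∈ O, ∃ δ > 0, s + δ ∈ O := by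
    intro s hs
    obtain ⟨δ, hδ, hball⟩ := Metric.isOpen_iff.1 hopen s hs
    refine ⟨δ / 2, by positivity, hball ?_⟩
    rw [Metric.mem_ball, Real.dist_eq, add_sub_cancel_left, abs_of_pos (by positivity)]
    linarith
  have htσ : t < σ := by
    obtain ⟨δ, hδ, h7⟩ := hpush t htO
    have := hle _ h7
    linarith
  have hσO : σ ∉ O := by
    intro h7
    obtain ⟨δ, hδ, h8⟩ := hpush σ h7
    have := hle _ h8
    linarith
  have hσC : σ ≤ t + C / L := by
    rw [hσ]
    refine csSup_le ⟨t, htO⟩ fun s hs => ?_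
    rcases le_or_gt s t with h7 | h7
    · have : 0 ≤ C / L := by positivity
      linarith
    · have h8 := haL s hs h7 (hb s hs)
      have h9 : s - t ≤ C / L := by
        rw [le_div_iff₀ hL0]
        exact h8.le
      linarith
  have hCL : C / L < ε := by
    rw [div_lt_iff₀ hL0]
    rw [div_lt_iff₀ hε] at hL2
    nlinarith
  refine ⟨σ, htσ, by linarith, ?_⟩
  rintro t' ht1 ht2 ⟨-, V, hV0, hfrV, -⟩
  -- a direction of O close to σ
  have h7 : (t' - σ) * C < w * (σ - t) := by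
    have h8 : t' - σ < w / C * (σ - t) := by linarith
    calc (t' - σ) * C < w / C * (σ - t) * C := by gcongr
      _ = w * (σ - t) := by field_simp
  have h8 : (w * t + t' * C) / (w + C) < σ := by
    rw [div_lt_iff₀ (by positivity)]
    nlinarith
  obtain ⟨s, hsO, hs⟩ := exists_lt_of_lt_csSup ⟨t, htO⟩ (b := max t ((w * t + t' * C) / (w + C)))
    (by rw [← hσ]; exact max_lt htσ h8)
  have hts : t < s := (le_max_left _ _).trans_lt hs
  have hs2 : (t' - s) * C < w * (s - t) := by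
    have h9 := (le_max_right t _).trans_lt hs
    rw [div_lt_iff₀ (by positivity)] at h9
    nlinarith
  have hsσ : s ≤ σ := hle s hsO
  obtain ⟨b1, b2⟩ := ha s hsO hts (hb s hsO)
  have hst' : 0 < t' - s := by linarith
  have hhj : 0 < S.hj s W z k := hL0.trans_le b2
  have hlt : |t' - s| * S.hj s W z k < w := by
    rw [abs_of_pos hst']
    have h9 : (t' - s) * S.hj s W z k * (s - t) < w * (s - t) := by
      calc (t' - s) * S.hj s W z k * (s - t) = (t' - s) * ((s - t) * S.hj s W z k) := by ring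
        _ < (t' - s) * C := by gcongr
        _ < w * (s - t) := hs2
    exact lt_of_mul_lt_mul_right h9 (by linarith)
  have hVW := h5 n S s t' w z W V k hw hz hsO hfrV hV0 hlt
  have hwd : wd V (k + 1) = wd W (k + 1) := by
    unfold wd
    exact List.map_congr_left fun i hi => hVW i (Nat.lt_succ_iff.1 (List.mem_range.1 hi))
  have h9 := hfrV (k + 1) (xi t' z) (by linarith) (by linarith)
  rw [hwd] at h9
  have h10 := hle t' h9
  linarith

end Pool.Agent.H56.DV
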